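import Pool.Agent.E8helper4.FV.Stm4
import Pool.Agent.E8helper69.FV.C5

/-!
# FV4 G7 (helper4's project on Schiffer domains): the sign criterion
-/

set_option autoImplicit false

open Complex MeasureTheory Metric Set Filter Topology ComplexConjugate
open Pool.Agent.E8helper4.FV

namespace Pool.Agent.E8helper89.FV

open Pool.Agent.E8helper69.FV (exp_mem_sphere exp_mem_ball analyticAt_exp analyticAt_comp
  hasDerivAt_phi GG disc)

/-- the normal components are real analytic -/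
theorem analytic_vn (φ : ℂ → ℂ) (r : ℝ) (hr : 1 < r) (hφ : DifferentiableOn ℂ φ (ball 0 r))
    (β : ℂ) (ω : ℝ) : AnalyticOnNhd ℝ (vn φ β ω) univ := by
  intro t _
  have hd : DifferentiableOn ℂ (deriv φ) (ball 0 r) := hφ.deriv isOpen_ball
  have h1 : AnalyticAt ℝ (fun t : ℝ => I * exp ((t : ℂ) * I) * deriv φ (exp ((t : ℂ) * I))) t :=
    (analyticAt_const.mul (analyticAt_exp t)).mul (analyticAt_comp _ r hr hd t)
  have h3 : AnalyticAt ℝ (fun t : ℝ => β + I * (ω : ℂ) * φ (exp ((t : ℂ) * I))) t :=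
    analyticAt_const.add (analyticAt_const.mul (analyticAt_comp _ r hr hφ t))
  have h2 : AnalyticAt ℝ (fun t : ℝ => conj (β + I * (ω : ℂ) * φ (exp ((t : ℂ) * I)))) t :=
    AnalyticAt.fun_comp (g := fun z : ℂ => conj z)
      (Complex.conjCLE.toContinuousLinearMap.analyticAt _) h3
  exact AnalyticAt.fun_comp (g := fun z : ℂ => z.im) (Complex.imCLM.analyticAt _) (h2.mul h1)

theorem continuous_vn (φ : ℂ → ℂ) (r : ℝ) (hr : 1 < r) (hφ : DifferentiableOn ℂ φ (ball 0 r))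
    (β : ℂ) (ω : ℝ) : Continuous (vn φ β ω) :=
  continuous_iff_continuousAt.2 fun t => (analytic_vn φ r hr hφ β ω t (mem_univ t)).continuousAt

theorem xd_ne (φ : ℂ → ℂ) (r : ℝ) (hr : 1 < r) (hφ : DifferentiableOn ℂ φ (ball 0 r))
    (hinj : InjOn φ (ball 0 r)) (t : ℝ) : xd φ t ≠ 0 := by
  have hd : deriv φ (exp ((t : ℂ) * I)) ≠ 0 :=
    Pool.Agent.Y769.SC.nz φ r hφ hinj _ (exp_mem_ball r hr t)
  exact mul_ne_zero (mul_ne_zero I_ne_zero (exp_ne_zero _)) hd

theorem continuous_xd (φ : ℂ → ℂ) (r : ℝ) (hr : 1 < r) (hφ : DifferentiableOn ℂ φ (ball 0 r)) :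
    Continuous (xd φ) := by
  have hd : DifferentiableOn ℂ (deriv φ) (ball 0 r) := hφ.deriv isOpen_ball
  refine continuous_iff_continuousAt.2 fun t => ?_
  have h1 : AnalyticAt ℝ (fun t : ℝ => I * exp ((t : ℂ) * I) * deriv φ (exp ((t : ℂ) * I))) t :=
    (analyticAt_const.mul (analyticAt_exp t)).mul (analyticAt_comp _ r hr hd t)
  exact h1.continuousAt

/-- a Killing field tangent to the boundary: the domain is a disc -/
theorem disc_of_vn (φ : ℂ → ℂ) (r : ℝ) (hr : 1 < r) (hφ : DifferentiableOn ℂ φ (ball 0 r))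
    (hinj : InjOn φ (ball 0 r)) (β : ℂ) (ω : ℝ) (hb : β ≠ 0 ∨ ω ≠ 0)
    (h : ∀ t, vn φ β ω t = 0) : ∃ (p : ℂ) (R : ℝ), 0 < R ∧ φ '' ball 0 1 = ball p R := by
  by_cases hω : ω = 0
  · exfalso
    have hβ : β ≠ 0 := by tauto
    subst hω
    have hcont : ContinuousOn (fun w => (conj β * φ w).re) (sphere (0 : ℂ) 1) := by
      have h1 : ContinuousOn φ (sphere (0 : ℂ) 1) := hφ.continuousOn.mono fun w hw => by
        rw [mem_ball_zero_iff]
        rw [mem_sphere_zero_iff_norm] at hw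
        rw [hw]
        exact hr
      exact continuous_re.comp_continuousOn (continuousOn_const.mul h1)
    obtain ⟨w, hw, hmax⟩ := (isCompact_sphere (0 : ℂ) 1).exists_isMaxOn
      ⟨1, by simp⟩ hcont
    obtain ⟨t, rfl⟩ : ∃ t : ℝ, exp ((t : ℂ) * I) = w := by
      refine ⟨arg w, ?_⟩
      have hn : ‖w‖ = 1 := by simpa using hw
      have := Complex.norm_mul_exp_arg_mul_I w
      rwa [hn, ofReal_one, one_mul] at this
    have hloc : IsLocalMax (fun s : ℝ => (conj β * φ (exp ((s : ℂ) * I))).re) t :=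
      Filter.Eventually.of_forall fun s => hmax (exp_mem_sphere s)
    have hder : HasDerivAt (fun s : ℝ => (conj β * φ (exp ((s : ℂ) * I))).re)
        ((conj β * xd φ t).re) t :=
      Complex.reCLM.hasFDerivAt.comp_hasDerivAt t ((hasDerivAt_phi φ r hr hφ t).const_mul (conj β))
    have h1 := hloc.hasDerivAt_eq_zero hder
    have h2 : (conj β * xd φ t).im = 0 := by
      have := h t
      unfold vn at this
      simpa using this
    have h3 : conj β * xd φ t = 0 := Complex.ext h1 h2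
    rcases mul_eq_zero.1 h3 with h4 | h4
    · exact hβ (by simpa using h4)
    · exact xd_ne φ r hr hφ hinj t h4
  · refine disc φ r hr hφ hinj (I * β / ω) fun t => ?_
    have hω' : (ω : ℂ) ≠ 0 := by exact_mod_cast hω
    have h1 := h t
    unfold vn at h1
    have e : β + I * (ω : ℂ) * xx φ t = (I * (ω : ℂ)) * (xx φ t - I * β / ω) := by
      field_simp
      ring_nf
      rw [I_sq]
      ring
    rw [e, map_mul, map_mul, conj_I, conj_ofReal] at h1
    have e2 : (-I * (ω : ℂ) * conj (xx φ t - I * β / ω) * xd φ t).im =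
        -ω * (conj (xd φ t) * (xx φ t - I * β / ω)).re := by
      generalize xx φ t - I * β / ω = q
      simp only [mul_im, mul_re, neg_re, neg_im, I_re, I_im, conj_re, conj_im, ofReal_re, ofReal_im]
      ring
    rw [e2] at h1
    have h2 : (conj (xd φ t) * (xx φ t - I * β / ω)).re = 0 := by
      rcases mul_eq_zero.1 h1 with h3 | h3
      · exact absurd (neg_eq_zero.1 h3) hω
      · exact h3
    exact h2

theorem t_G7 : G7 := by
  intro φ r hr hφ hinj H β1 β2 β3 ω1 ω2 ω3 h1 h2 h3 hs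
  have c1 := continuous_vn φ r hr hφ β1 ω1
  have c2 := continuous_vn φ r hr hφ β2 ω2
  have c3 := continuous_vn φ r hr hφ β3 ω3
  have cx := continuous_xd φ r hr hφ
  have hpi : (0 : ℝ) < 2 * Real.pi := by positivity
  have hz : ∀ t ∈ Icc (0 : ℝ) (2 * Real.pi), vn φ β1 ω1 t * vn φ β2 ω2 t * vn φ β3 ω3 t = 0 := by
    by_contra hne
    push Not at hne
    obtain ⟨t, ht, hne⟩ := hne
    have hpos : ∀ s, 0 < ‖xd φ s‖ ^ 2 := fun s =>
      pow_pos (norm_pos_iff.2 (xd_ne φ r hr hφ hinj s)) 2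
    have hI : 0 < ∫ t in (0 : ℝ)..(2 * Real.pi),
        vn φ β1 ω1 t * vn φ β2 ω2 t * vn φ β3 ω3 t / ‖xd φ t‖ ^ 2 := by
      refine intervalIntegral.integral_pos hpi ?_ ?_ ⟨t, ht, ?_⟩
      · exact (((c1.mul c2).mul c3).div (cx.norm.pow 2) fun s => (hpos s).ne').continuousOn
      · intro s _
        exact div_nonneg (hs s) (hpos s).le
      · exact div_pos (lt_of_le_of_ne (hs t) (Ne.symm hne)) (hpos t)
    exact hI.ne' (H β1 β2 β3 ω1 ω2 ω3)
  have a1 := analytic_vn φ r hr hφ β1 ω1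
  have a2 := analytic_vn φ r hr hφ β2 ω2
  have a3 := analytic_vn φ r hr hφ β3 ω3
  have fin : ∀ (β : ℂ) (ω : ℝ), (β ≠ 0 ∨ ω ≠ 0) → (∀ᶠ t in 𝓝 (1 : ℝ), vn φ β ω t = 0) →
      ∃ (p : ℂ) (R : ℝ), 0 < R ∧ φ '' ball 0 1 = ball p R := by
    intro β ω hb h0
    refine disc_of_vn φ r hr hφ hinj β ω hb fun t => ?_
    exact (analytic_vn φ r hr hφ β ω).eqOn_zero_of_preconnected_of_eventuallyEq_zero
      isPreconnected_univ (mem_univ _) h0 (mem_univ t)
  rcases (a1 1 (mem_univ _)).eventually_eq_zero_or_eventually_ne_zero with e1 | e1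
  · exact fin β1 ω1 h1 e1
  rcases (a2 1 (mem_univ _)).eventually_eq_zero_or_eventually_ne_zero with e2 | e2
  · exact fin β2 ω2 h2 e2
  rcases (a3 1 (mem_univ _)).eventually_eq_zero_or_eventually_ne_zero with e3 | e3
  · exact fin β3 ω3 h3 e3
  exfalso
  have h2pi : (1 : ℝ) < 2 * Real.pi := by linarith [Real.pi_gt_three]
  have e0 : ∀ᶠ t in 𝓝[≠] (1 : ℝ), t ∈ Icc (0 : ℝ) (2 * Real.pi) :=
    nhdsWithin_le_nhds (Icc_mem_nhds one_pos h2pi)
  obtain ⟨t, ⟨⟨ht1, ht2⟩, ht3⟩, ht0⟩ := (((e1.and e2).and e3).and e0).exists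
  exact mul_ne_zero (mul_ne_zero ht1 ht2) ht3 (hz t ht0)

end Pool.Agent.E8helper89.FV
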